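import Pool.Agent.Q81.JN.Stm

set_option autoImplicit false

namespace Pool.Agent.Q299.JN

open Pool.Agent.Q81.JN

theorem ala : S_ALA := by
  intro τ g l D c κ h0 h1 hg hl hκ hD hc1 hc2
  have hl2 : 1 / 2 < l := by linarith
  have e : τ * (1 / 4 + l ^ 2 + l * c) - (1 / 2 - D * l + (l - D / 2) * c) =
      (1 + c) / 2 * (τ * ((l + 1 / 2) * (l + 1 / 2 - g))) +
      (1 - c) / 2 * ((l - 1 / 2) * (2 - τ * (g + 1 / 2 - l))) +
      (D - (1 - τ * g)) * (l + c / 2) := by ring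
  have a1 : 0 ≤ (1 + c) / 2 * (τ * ((l + 1 / 2) * (l + 1 / 2 - g))) :=
    mul_nonneg (by linarith) (mul_nonneg h0 (mul_nonneg (by linarith) (by linarith)))
  have a2 : τ * (g + 1 / 2 - l) ≤ 1 := by
    have : τ * (g + 1 / 2 - l) ≤ τ * 1 := mul_le_mul_of_nonneg_left (by linarith) h0
    linarith
  have a3 : 0 ≤ (1 - c) / 2 * ((l - 1 / 2) * (2 - τ * (g + 1 / 2 - l))) :=
    mul_nonneg (by linarith) (mul_nonneg (by linarith) (by linarith))
  have a4 : 0 < (D - (1 - τ * g)) * (l + c / 2) := mul_pos (by linarith) (by linarith)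
  linarith

end Pool.Agent.Q299.JN
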