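import Pool.Agent.Q81.JN.Stm

set_option autoImplicit false

open Complex Metric Set Filter Topology

namespace Pool.Agent.Q299.JN

open Pool.Agent.Q81.JN

theorem jc : S_JC := by
  intro A B f q h
  have hb0 : (0 : ℂ) ∈ ball (0 : ℂ) 1 := by simp
  have hd := h.inA.diff
  have hd' : DifferentiableOn ℂ (deriv f) (ball 0 1) := hd.deriv isOpen_ball
  constructor
  · have e : EqOn (JJ f) (fun z => dslope f 0 z / deriv f z) (ball 0 1) := by
      intro z hz
      by_cases h0 : z = 0
      · subst h0
        simp [JJ, dslope_same, h.inA.deriv_zero]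
      · simp only [JJ, if_neg h0]
        rw [dslope_of_ne f h0, slope_def_field, h.inA.map_zero, sub_zero, sub_zero]
        rw [div_div]
    refine ContinuousOn.congr ?_ e
    refine ContinuousOn.div ?_ hd'.continuousOn h.ne
    rw [continuousOn_dslope (isOpen_ball.mem_nhds hb0)]
    exact ⟨hd.continuousOn, hd.differentiableAt (isOpen_ball.mem_nhds hb0)⟩
  · intro z hz h0
    have hf1 : HasDerivAt f (deriv f z) z :=
      (hd.differentiableAt (isOpen_ball.mem_nhds hz)).hasDerivAt
    have hf2 : HasDerivAt (deriv f) (deriv (deriv f) z) z :=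
      (hd'.differentiableAt (isOpen_ball.mem_nhds hz)).hasDerivAt
    have hne := h.ne z hz
    have hq := h.qeq z hz
    have hden : HasDerivAt (fun w => w * deriv f w) (1 * deriv f z + z * deriv (deriv f) z) z :=
      (hasDerivAt_id z).mul hf2
    have hq2 := hf1.div hden (mul_ne_zero h0 hne)
    have ev : JJ f =ᶠ[𝓝 z] fun w => f w / (w * deriv f w) := by
      filter_upwards [isOpen_ne.mem_nhds h0] with w hw
      simp only [JJ, if_neg (show w ≠ 0 from hw)]
    refine (hq2.congr_of_eventuallyEq ev).congr_deriv ?_
    rw [hq]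
    simp only [JJ, if_neg h0]
    field_simp
    ring

end Pool.Agent.Q299.JN
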