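import Pool.Agent.Q81.JN.Stm

set_option autoImplicit false

open Complex Metric Set Filter Topology

namespace Pool.Agent.Q299.JN

open Pool.Agent.Q81.JN

theorem mi (hMF : S_MF) : S_MI := by
  intro A B f q h z hz
  have hd := h.inA.diff
  have hd' : DifferentiableOn ℂ (deriv f) (ball 0 1) := hd.deriv isOpen_ball
  obtain ⟨hτ, hm, hm0, -, -, -⟩ := hMF A B h.par
  by_cases h0 : z = 0
  · subst h0
    rw [norm_zero, hm0, h.inA.deriv_zero, norm_one]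
  obtain ⟨r, hr⟩ : ∃ r : ℝ, r = ‖z‖ := ⟨_, rfl⟩
  rw [← hr]
  have hr0 : 0 < r := by rw [hr]; exact norm_pos_iff.mpr h0
  have hr1 : r < 1 := by rw [hr]; simpa using hz
  obtain ⟨ζ, hζ⟩ : ∃ ζ : ℂ, ζ = z / (r : ℂ) := ⟨_, rfl⟩
  have hrc : (r : ℂ) ≠ 0 := by exact_mod_cast hr0.ne'
  have hrζ : (r : ℂ) * ζ = z := by rw [hζ]; field_simp
  have hζn : ‖ζ‖ = 1 := by
    rw [hζ, norm_div, Complex.norm_real, Real.norm_eq_abs, abs_of_pos hr0, ← hr]
    exact div_self hr0.ne'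
  have nrm : ∀ s : ℝ, 0 ≤ s → ‖(s : ℂ) * ζ‖ = s := by
    intro s hs
    rw [norm_mul, hζn, mul_one, Complex.norm_real, Real.norm_eq_abs, abs_of_nonneg hs]
  have mem : ∀ s ∈ Icc (0 : ℝ) r, (s : ℂ) * ζ ∈ ball (0 : ℂ) 1 := by
    intro s hs
    rw [mem_ball_zero_iff, nrm s hs.1]
    exact lt_of_le_of_lt hs.2 hr1
  have hv : ∀ s ∈ Icc (0 : ℝ) r, HasDerivAt (fun s : ℝ => deriv f ((s : ℂ) * ζ))
      (deriv (deriv f) ((s : ℂ) * ζ) * ζ) s := by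
    intro s hs
    have h1 : HasDerivAt (fun s : ℝ => (s : ℂ) * ζ) (1 * ζ) s :=
      (Complex.ofRealCLM.hasDerivAt (x := s)).mul_const ζ
    have h2 : HasDerivAt (deriv f) (deriv (deriv f) ((s : ℂ) * ζ)) ((s : ℂ) * ζ) :=
      (hd'.differentiableAt (isOpen_ball.mem_nhds (mem s hs))).hasDerivAt
    have h3 := HasDerivAt.comp s h2 h1
    rw [one_mul] at h3
    exact h3
  have hψ : ∀ s ∈ Icc (0 : ℝ) r, HasDerivAt
      (fun s : ℝ => ‖deriv f ((s : ℂ) * ζ)‖ ^ 2 / mm A B s ^ 2)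
      ((2 * inner ℝ (deriv f ((s : ℂ) * ζ)) (deriv (deriv f) ((s : ℂ) * ζ) * ζ) * mm A B s ^ 2 -
        ‖deriv f ((s : ℂ) * ζ)‖ ^ 2 *
          (2 * mm A B s * (-((A - B) / (1 - B * s)) * mm A B s))) / (mm A B s ^ 2) ^ 2) s := by
    intro s hs
    have hs1 : s ∈ Icc (0 : ℝ) 1 := ⟨hs.1, hs.2.trans hr1.le⟩
    have h1 := (hv s hs).norm_sq
    have h2 := (hm s hs1).2.2.pow 2
    have h3 := h1.div h2 (pow_ne_zero 2 (hm s hs1).1.ne')
    refine h3.congr_deriv ?_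
    simp
  have mono : MonotoneOn (fun s : ℝ => ‖deriv f ((s : ℂ) * ζ)‖ ^ 2 / mm A B s ^ 2) (Icc 0 r) := by
    refine monotoneOn_of_deriv_nonneg (convex_Icc 0 r)
      (fun s hs => (hψ s hs).continuousAt.continuousWithinAt)
      (fun s hs => (hψ s (interior_subset hs)).differentiableAt.differentiableWithinAt) ?_
    intro s hs
    rw [interior_Icc] at hs
    have hs' : s ∈ Icc (0 : ℝ) r := ⟨hs.1.le, hs.2.le⟩
    have hs1 : s ∈ Icc (0 : ℝ) 1 := ⟨hs.1.le, hs.2.le.trans hr1.le⟩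
    rw [(hψ s hs').deriv]
    refine div_nonneg ?_ (by positivity)
    have hmp := (hm s hs1).1
    have hq := h.qeq _ (mem s hs')
    have hqr := h.qre _ (mem s hs')
    rw [nrm s hs.1.le] at hqr
    have ht := (hτ s ⟨hs.1.le, lt_of_lt_of_le hs.2 hr1.le⟩).2.2.2
    have e1 : s * inner ℝ (deriv f ((s : ℂ) * ζ)) (deriv (deriv f) ((s : ℂ) * ζ) * ζ) =
        (q ((s : ℂ) * ζ)).re * ‖deriv f ((s : ℂ) * ζ)‖ ^ 2 := by
      rw [Complex.inner]
      have e2 : (s : ℂ) * (starRingEnd ℂ (deriv f ((s : ℂ) * ζ)) *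
          (deriv (deriv f) ((s : ℂ) * ζ) * ζ)) =
          q ((s : ℂ) * ζ) * ((‖deriv f ((s : ℂ) * ζ)‖ ^ 2 : ℝ) : ℂ) := by
        have e3 : (starRingEnd ℂ (deriv f ((s : ℂ) * ζ))) * deriv f ((s : ℂ) * ζ) =
            ((‖deriv f ((s : ℂ) * ζ)‖ ^ 2 : ℝ) : ℂ) := by
          rw [Complex.conj_mul']
          push_cast
          rfl
        calc _ = starRingEnd ℂ (deriv f ((s : ℂ) * ζ)) *
            ((s : ℂ) * ζ * deriv (deriv f) ((s : ℂ) * ζ)) := by ring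
          _ = starRingEnd ℂ (deriv f ((s : ℂ) * ζ)) *
            (q ((s : ℂ) * ζ) * deriv f ((s : ℂ) * ζ)) := by rw [hq]
          _ = q ((s : ℂ) * ζ) * (starRingEnd ℂ (deriv f ((s : ℂ) * ζ)) *
            deriv f ((s : ℂ) * ζ)) := by ring
          _ = _ := by rw [e3]
      have e4 := congrArg Complex.re e2
      rw [Complex.re_ofReal_mul, Complex.re_mul_ofReal] at e4
      rw [← e4, mul_comm (starRingEnd ℂ (deriv f ((s : ℂ) * ζ)))]
    have e5 : 0 ≤ s * (inner ℝ (deriv f ((s : ℂ) * ζ)) (deriv (deriv f) ((s : ℂ) * ζ) * ζ) +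
        (A - B) / (1 - B * s) * ‖deriv f ((s : ℂ) * ζ)‖ ^ 2) := by
      have e6 : s * (inner ℝ (deriv f ((s : ℂ) * ζ)) (deriv (deriv f) ((s : ℂ) * ζ) * ζ) +
        (A - B) / (1 - B * s) * ‖deriv f ((s : ℂ) * ζ)‖ ^ 2) =
        ((q ((s : ℂ) * ζ)).re + s * ((A - B) / (1 - B * s))) *
          ‖deriv f ((s : ℂ) * ζ)‖ ^ 2 := by
        rw [mul_add, e1]; ring
      rw [e6]
      refine mul_nonneg ?_ (by positivity)
      linarith
    have e7 := (mul_nonneg_iff_of_pos_left hs.1).mp e5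
    have e8 : 2 * inner ℝ (deriv f ((s : ℂ) * ζ)) (deriv (deriv f) ((s : ℂ) * ζ) * ζ) *
        mm A B s ^ 2 - ‖deriv f ((s : ℂ) * ζ)‖ ^ 2 *
          (2 * mm A B s * (-((A - B) / (1 - B * s)) * mm A B s)) =
        2 * mm A B s ^ 2 * (inner ℝ (deriv f ((s : ℂ) * ζ)) (deriv (deriv f) ((s : ℂ) * ζ) * ζ) +
        (A - B) / (1 - B * s) * ‖deriv f ((s : ℂ) * ζ)‖ ^ 2) := by ring
    rw [e8]
    exact mul_nonneg (by positivity) e7
  have fin := mono (left_mem_Icc.mpr hr0.le) (right_mem_Icc.mpr hr0.le) hr0.le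
  simp only [Complex.ofReal_zero, zero_mul, h.inA.deriv_zero, norm_one, hm0, hrζ] at fin
  have hmr := (hm r ⟨hr0.le, hr1.le⟩).1
  have f2 : mm A B r ^ 2 ≤ ‖deriv f z‖ ^ 2 := by
    have : (1 : ℝ) ≤ ‖deriv f z‖ ^ 2 / mm A B r ^ 2 := by
      have : (1 : ℝ) ^ 2 / 1 ^ 2 = 1 := by norm_num
      linarith
    rwa [le_div_iff₀ (by positivity), one_mul] at this
  exact (sq_le_sq₀ hmr.le (norm_nonneg _)).mp f2

end Pool.Agent.Q299.JN
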