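import Pool.Agent.Q81.JN.Stm

set_option autoImplicit false

open Complex Metric Set Filter Topology

namespace Pool.Agent.Q299.JN

open Pool.Agent.Q81.JN

theorem hasDerivAt_nrm {v : ℝ → ℂ} {v' : ℂ} {t : ℝ} (hv : HasDerivAt v v' t) (h0 : v t ≠ 0) :
    HasDerivAt (fun s => ‖v s‖) ((v' * starRingEnd ℂ (v t)).re / ‖v t‖) t := by
  have hp : 0 < ‖v t‖ := norm_pos_iff.mpr h0
  have h1 := hv.norm_sq
  have h2 := h1.sqrt (by positivity)
  have e : (fun y : ℝ => Real.sqrt (‖v y‖ ^ 2)) = fun s => ‖v s‖ := by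
    funext s
    exact Real.sqrt_sq (norm_nonneg _)
  rw [e, Real.sqrt_sq (norm_nonneg _)] at h2
  refine h2.congr_deriv ?_
  rw [Complex.inner]
  field_simp

theorem nonpos_of_left_min {h : ℝ → ℝ} {h' : ℝ} (hd : HasDerivAt h h' 1)
    (hm : ∀ s ∈ Icc (0 : ℝ) 1, h 1 ≤ h s) : h' ≤ 0 := by
  have h1 : Tendsto (slope h 1) (𝓝[<] 1) (𝓝 h') :=
    (hasDerivAt_iff_tendsto_slope.mp hd).mono_left
      (nhdsWithin_mono _ fun x hx => ne_of_lt hx)
  refine le_of_tendsto h1 ?_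
  have h2 : ∀ᶠ s : ℝ in 𝓝[<] (1 : ℝ), 0 < s :=
    eventually_nhdsWithin_of_eventually_nhds (lt_mem_nhds one_pos)
  filter_upwards [self_mem_nhdsWithin, h2] with s hs hs0
  rw [slope_def_field]
  have hs' : s < 1 := hs
  exact div_nonpos_of_nonneg_of_nonpos (sub_nonneg.mpr (hm s ⟨hs0.le, hs'.le⟩)) (by linarith)

/-- the derivative of `N = Re J |f'|` along a curve -/
theorem hasDerivAt_N {A B : ℝ} {f q : ℂ → ℂ} (hJC : S_JC) (h : Pre A B f q) {z c : ℂ}
    (hz : z ∈ ball (0 : ℂ) 1) (h0 : z ≠ 0) {γ : ℝ → ℂ} {t : ℝ} (hγ : HasDerivAt γ (c * z) t)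
    (ht : γ t = z) :
    HasDerivAt (fun s => (JJ f (γ s)).re * ‖deriv f (γ s)‖)
      (‖deriv f z‖ * ((c * (1 - JJ f z - q z * JJ f z)).re + (JJ f z).re * (c * q z).re)) t := by
  subst ht
  have hd := h.inA.diff
  have hd' : DifferentiableOn ℂ (deriv f) (ball 0 1) := hd.deriv isOpen_ball
  have hJ := (hJC A B f q h).2 (γ t) hz h0
  have hJ1 := HasDerivAt.comp t hJ hγ
  have hJ2 : HasDerivAt (fun s => (JJ f (γ s)).re)
      (c * (1 - JJ f (γ t) - q (γ t) * JJ f (γ t))).re t := by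
    have h3 := (Complex.reCLM.hasFDerivAt (x := JJ f (γ t))).comp_hasDerivAt t hJ1
    refine h3.congr_deriv ?_
    have e : (1 - JJ f (γ t) - q (γ t) * JJ f (γ t)) / γ t * (c * γ t) =
        c * (1 - JJ f (γ t) - q (γ t) * JJ f (γ t)) := by
      field_simp
    rw [e]
    rfl
  have hne := h.ne _ hz
  have hf2 : HasDerivAt (deriv f) (deriv (deriv f) (γ t)) (γ t) :=
    (hd'.differentiableAt (isOpen_ball.mem_nhds hz)).hasDerivAt
  have hf3 : HasDerivAt (fun s => deriv f (γ s)) (deriv (deriv f) (γ t) * (c * γ t)) t :=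
    HasDerivAt.comp t hf2 hγ
  have hf4 := hasDerivAt_nrm hf3 hne
  have e2 : deriv (deriv f) (γ t) * (c * γ t) = c * q (γ t) * deriv f (γ t) := by
    rw [mul_assoc, ← h.qeq _ hz]; ring
  have hf5 : HasDerivAt (fun s => ‖deriv f (γ s)‖) (‖deriv f (γ t)‖ * (c * q (γ t)).re) t := by
    refine hf4.congr_deriv ?_
    rw [e2, mul_assoc, Complex.mul_conj, Complex.re_mul_ofReal, Complex.normSq_eq_norm_sq]
    have hp : ‖deriv f (γ t)‖ ≠ 0 := norm_ne_zero_iff.mpr hne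
    field_simp
  refine (hJ2.mul hf5).congr_deriv ?_
  ring

theorem mii (hMF : S_MF) (hJF : S_JF) (hJC : S_JC) (hMI : S_MI) : S_MII := by
  intro A B f q h z₀ hz₀ hz0
  have hd := h.inA.diff
  have hd' : DifferentiableOn ℂ (deriv f) (ball 0 1) := hd.deriv isOpen_ball
  obtain ⟨hτ, hm, hm0, -, -, -⟩ := hMF A B h.par
  obtain ⟨-, -, hJSc, hJSd⟩ := hJF A B h.par
  obtain ⟨hJc, hJd⟩ := hJC A B f q h
  have hmc : ContinuousOn (mm A B) (Icc 0 1) :=
    fun r hr => (hm r hr).2.2.continuousAt.continuousWithinAt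
  by_contra hcon
  push Not at hcon
  obtain ⟨ρ, hρ⟩ : ∃ ρ : ℝ, ρ = ‖z₀‖ := ⟨_, rfl⟩
  have hρ0 : 0 < ρ := by rw [hρ]; exact norm_pos_iff.mpr hz0
  have hρ1 : ρ < 1 := by rw [hρ]; simpa using hz₀
  -- `M / r = J* m`
  have hMr : ∀ r ∈ Ioo (0 : ℝ) 1, JS A B r * mm A B r = MM A B r / r := by
    intro r hr
    have h1 := (hm r ⟨hr.1.le, hr.2.le⟩).1
    have h2 := hr.1
    rw [JS, if_neg h2.ne']
    field_simp
  obtain ⟨ε, hε⟩ : ∃ ε : ℝ, ε = (MM A B ‖z₀‖ / ‖z₀‖ - (JJ f z₀).re * ‖deriv f z₀‖) / 2 :=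
    ⟨_, rfl⟩
  have hε0 : 0 < ε := by rw [hε]; linarith
  obtain ⟨Φ, hΦ⟩ : ∃ Φ : ℂ → ℝ, Φ = fun z => (JJ f z).re * ‖deriv f z‖ -
      JS A B ‖z‖ * mm A B ‖z‖ + ε * ‖z‖ ^ 2 := ⟨_, rfl⟩
  have hsub : closedBall (0 : ℂ) ρ ⊆ ball 0 1 := closedBall_subset_ball hρ1
  have hnc : ContinuousOn (fun z : ℂ => ‖z‖) (closedBall 0 ρ) := continuous_norm.continuousOn
  have hmap : MapsTo (fun z : ℂ => ‖z‖) (closedBall 0 ρ) (Ico 0 1) := by
    intro z hz
    exact ⟨norm_nonneg _, lt_of_le_of_lt (by simpa using hz) hρ1⟩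
  have hΦc : ContinuousOn Φ (closedBall 0 ρ) := by
    rw [hΦ]
    refine ContinuousOn.add (ContinuousOn.sub (ContinuousOn.mul ?_ ?_) (ContinuousOn.mul ?_ ?_)) ?_
    · exact Complex.continuous_re.comp_continuousOn (hJc.mono hsub)
    · exact (hd'.continuousOn.mono hsub).norm
    · exact hJSc.comp hnc hmap
    · exact hmc.comp hnc (hmap.mono_right Ico_subset_Icc_self)
    · exact (continuous_const.mul (continuous_norm.pow 2)).continuousOn
  have hz₀m : z₀ ∈ closedBall (0 : ℂ) ρ := by rw [mem_closedBall_zero_iff, hρ]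
  obtain ⟨z, hz, hmin⟩ := (isCompact_closedBall (0 : ℂ) ρ).exists_isMinOn ⟨z₀, hz₀m⟩ hΦc
  have hmin' : ∀ w ∈ closedBall (0 : ℂ) ρ, Φ z ≤ Φ w := fun w hw => hmin hw
  have hΦz₀ : Φ z₀ < 0 := by
    rw [hΦ]
    simp only
    rw [hMr ‖z₀‖ ⟨hρ ▸ hρ0, hρ ▸ hρ1⟩]
    have h2 : ‖z₀‖ ^ 2 < 1 := by
      rw [← hρ]; nlinarith
    have h3 : ε * ‖z₀‖ ^ 2 < ε * 1 := mul_lt_mul_of_pos_left h2 hε0
    linarith
  have hΦz : Φ z < 0 := lt_of_le_of_lt (hmin' z₀ hz₀m) hΦz₀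
  have hΦ0 : Φ 0 = 0 := by
    rw [hΦ]
    simp [JJ, JS, hm0, h.inA.deriv_zero]
  have hzne : z ≠ 0 := by
    intro h0
    rw [h0, hΦ0] at hΦz
    exact lt_irrefl _ hΦz
  have hzb := hsub hz
  obtain ⟨r, hr⟩ : ∃ r : ℝ, r = ‖z‖ := ⟨_, rfl⟩
  have hr0 : 0 < r := by rw [hr]; exact norm_pos_iff.mpr hzne
  have hr1 : r < 1 := by rw [hr]; simpa using hzb
  have hne := h.ne z hzb
  have hfp : 0 < ‖deriv f z‖ := norm_pos_iff.mpr hne
  -- angular derivative
  have hang : (JJ f z).im = 0 := by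
    have hγ : HasDerivAt (fun θ : ℝ => z * cexp ((θ : ℂ) * I)) (I * z) 0 := by
      have h1 : HasDerivAt (fun θ : ℝ => (θ : ℂ) * I) (1 * I) 0 :=
        (Complex.ofRealCLM.hasDerivAt (x := (0 : ℝ))).mul_const I
      have h2 := (h1.cexp).const_mul z
      refine h2.congr_deriv ?_
      simp
      ring
    have hN := hasDerivAt_N hJC h hzb hzne hγ (by simp)
    have hloc : IsLocalMin (fun s : ℝ => (JJ f (z * cexp ((s : ℂ) * I))).re *
        ‖deriv f (z * cexp ((s : ℂ) * I))‖) 0 := by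
      refine Filter.Eventually.of_forall fun s => ?_
      have hn : ‖z * cexp ((s : ℂ) * I)‖ = ‖z‖ := by
        rw [norm_mul, Complex.norm_exp_ofReal_mul_I, mul_one]
      have h5 := hmin' (z * cexp ((s : ℂ) * I)) (by
        rw [mem_closedBall_zero_iff, hn]; simpa using hz)
      rw [hΦ] at h5
      simp only [hn] at h5
      simp only [Complex.ofReal_zero, zero_mul, Complex.exp_zero, mul_one]
      linarith
    have h6 := hloc.hasDerivAt_eq_zero hN
    have h7 := (mul_eq_zero.mp h6).resolve_left hfp.ne'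
    have hqr := h.qre z hzb
    rw [← hr] at hqr
    have ht := (hτ r ⟨hr0.le, hr1⟩).2.1
    have h8 : (JJ f z).im * (1 + (q z).re) = 0 := by
      rw [← h7]
      simp [Complex.mul_re, Complex.mul_im, Complex.sub_re, Complex.sub_im]
      ring
    exact (mul_eq_zero.mp h8).resolve_right (by linarith)
  -- radial derivative
  have hγ : HasDerivAt (fun s : ℝ => (s : ℂ) * z) (1 * z) 1 :=
    (Complex.ofRealCLM.hasDerivAt (x := (1 : ℝ))).mul_const z
  have hN := hasDerivAt_N hJC h hzb hzne hγ (by simp)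
  have hr01 : r ∈ Ioo (0 : ℝ) 1 := ⟨hr0, hr1⟩
  have hlin : HasDerivAt (fun s : ℝ => s * r) r 1 := by
    simpa using (hasDerivAt_id (1 : ℝ)).mul_const r
  have hJSr : HasDerivAt (fun s : ℝ => JS A B (s * r)) ((1 - tau A B r * JS A B r) / r * r) 1 := by
    have h1 : HasDerivAt (JS A B) ((1 - tau A B r * JS A B r) / r) (1 * r) := by
      rw [one_mul]; exact hJSd r hr01
    exact HasDerivAt.comp (1 : ℝ) h1 hlin
  have hmr : HasDerivAt (fun s : ℝ => mm A B (s * r))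
      (-((A - B) / (1 - B * r)) * mm A B r * r) 1 := by
    have h1 : HasDerivAt (mm A B) (-((A - B) / (1 - B * r)) * mm A B r) (1 * r) := by
      rw [one_mul]; exact (hm r ⟨hr0.le, hr1.le⟩).2.2
    exact HasDerivAt.comp (1 : ℝ) h1 hlin
  have hh := (hN.sub (hJSr.mul hmr)).add ((hlin.pow 2).const_mul ε)
  have hle := nonpos_of_left_min hh (by
    intro s hs
    have hns : ‖(s : ℂ) * z‖ = s * r := by
      rw [norm_mul, Complex.norm_real, Real.norm_eq_abs, abs_of_nonneg hs.1, hr]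
    have h5 := hmin' ((s : ℂ) * z) (by
      rw [mem_closedBall_zero_iff, hns]
      have : ‖z‖ ≤ ρ := by simpa using hz
      rw [← hr] at this
      nlinarith [hs.1, hs.2])
    rw [hΦ] at h5
    simp only [hns] at h5
    rw [← hr] at h5
    simpa using h5)
  have ht := (hτ r ⟨hr0.le, hr1⟩).2.2.2
  have hMIz := hMI A B f q h z hzb
  rw [← hr] at hMIz
  have hΦz' : (JJ f z).re * ‖deriv f z‖ - JS A B r * mm A B r + ε * r ^ 2 < 0 := by
    rw [hΦ] at hΦz
    simpa [← hr] using hΦz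
  have e1 : ‖deriv f z‖ * ((1 * (1 - JJ f z - q z * JJ f z)).re + (JJ f z).re * (1 * q z).re) =
      ‖deriv f z‖ - (JJ f z).re * ‖deriv f z‖ := by
    simp only [one_mul, Complex.sub_re, Complex.mul_re, Complex.one_re, hang]
    ring
  have e2 : (1 - tau A B r * JS A B r) / r * r = 1 - tau A B r * JS A B r := by
    field_simp
  have e3 : -((A - B) / (1 - B * r)) * mm A B r * r = -(1 - tau A B r) * mm A B r := by
    rw [ht]; ring
  have hεr : 0 < ε * r ^ 2 := by positivity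
  simp only [one_mul, e2, e3] at hle e1
  rw [e1] at hle
  norm_num at hle
  nlinarith [hle, hΦz', hMIz, hεr]

end Pool.Agent.Q299.JN
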